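import Pool.Agent.Pebble.PSpaceHard

/-!
# Approximating the black pebbling number to within additive n^(1 - ε) is PSPACE-hard

* PSPACE reduces to the truth of quantified Boolean formulas (Savitch's halving; `Lib/PSpace`);
* a formula is turned into a capacity game: the node `v` may be pebbled if its in-neighbours are
  pebbled and at most `cap v` nodes are pebbled (`Pebble/CapSound`, `Pebble/CapComplete`);
* every node is replaced by a road of width `(s - cap v) * K`, which costs that many pebbles to
  traverse; this gives the gap `n ^ (1 / 5)` (`Pebble/CapGap`);
* the gap is amplified: every node of the graph is replaced by a gadget with `K * log² K` nodes,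
  which consists of superconcentrators and a core (`Pebble/Reduction`).
-/

set_option autoImplicit false

namespace Pool.Agent.Results.MP_abd5c2_lc.PSpaceHard

open Pool.Agent.Pebble Pool.Agent.Lib.PSpace

theorem result : ∀ ε : ℝ, 0 < ε → Hard PSPACE (gapPeb (1 - ε)) := fun _ hε => hard_all hε

end Pool.Agent.Results.MP_abd5c2_lc.PSpaceHard
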